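import Pool.Agent.Helper37.RQ.Defs
import Pool.Agent.Helper47.ReconDefs

/-!
Row C of the reconstruction project: assembly, with the other rows as hypotheses.
-/

namespace Pool.Agent.Helper37.RQ

open MeasureTheory Set Filter Topology
open scoped ENNReal Pointwise

lemma c_lform_continuous {n : ℕ} (a : Fin n → ℝ) : Continuous (lform a) := by
  unfold lform
  fun_prop

lemma c_lform_affine {n : ℕ} (a : Fin n → ℝ) (r : ℝ) (y x : Fin (n + 1) → ℝ) :
    lform a (r • y + x) = lform a x + r * lform a y := by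
  simp only [lform, Pi.add_apply, Pi.smul_apply, smul_eq_mul, mul_add, Finset.sum_add_distrib,
    Finset.mul_sum]
  have : ∑ j, a j * (r * y j.succ) = ∑ j, r * (a j * y j.succ) :=
    Finset.sum_congr rfl fun j _ => by ring
  rw [this]
  ring

lemma c_vol_image {n : ℕ} (B : Set (Fin (n + 1) → ℝ)) {r : ℝ} (hr : 0 < r) (x : Fin (n + 1) → ℝ) :
    volume ((fun y => r • y + x) '' B) = ENNReal.ofReal (r ^ (n + 1)) * volume B := by
  have h1 : (fun y => r • y + x) '' B = (fun z => z + x) '' (r • B) := by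
    rw [← Set.image_smul, Set.image_image]
  rw [h1, Set.image_add_right, measure_preimage_add_right, Measure.addHaar_smul]
  simp [abs_of_pos (pow_pos hr (n + 1))]

lemma c_vol {n : ℕ} (a : Fin n → ℝ) (E : Set (Fin (n + 1) → ℝ))
    {S : Set ℝ} (hS : MeasurableSet S) {r : ℝ} (hr : 0 < r) (x : Fin (n + 1) → ℝ) :
    volume ((fun y => r • y + x) '' E ∩ lform a ⁻¹' S) =
      ENNReal.ofReal (r ^ (n + 1)) *
        ((volume.restrict E).map (lform a)) {s | lform a x + r * s ∈ S} := by
  have hm : MeasurableSet {s : ℝ | lform a x + r * s ∈ S} := by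
    have : Measurable (fun s : ℝ => lform a x + r * s) := by fun_prop
    exact this hS
  rw [← Set.image_inter_preimage, c_vol_image _ hr,
    Measure.map_apply (c_lform_continuous a).measurable hm,
    Measure.restrict_apply ((c_lform_continuous a).measurable hm)]
  congr 2
  ext z
  simp only [Set.mem_inter_iff, Set.mem_preimage, Set.mem_setOf_eq, c_lform_affine]
  tauto

lemma c_dens_integrable {L : ℝ} {p q : ℝ → ℝ} (D : Dens L p q) : Integrable p := by
  by_contra h
  have := D.p_pos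
  rw [integral_undef h] at this
  exact lt_irrefl _ this

lemma c_mu {L : ℝ} {p q : ℝ → ℝ} (D : Dens L p q) {S : Set ℝ} (hS : MeasurableSet S) (r u : ℝ) :
    (volume.withDensity (fun s => ENNReal.ofReal (p s))) {s | u + r * s ∈ S} =
      ENNReal.ofReal (∫ s, S.indicator 1 (u + r * s) * p s) := by
  have hm : MeasurableSet {s : ℝ | u + r * s ∈ S} := by
    have : Measurable (fun s : ℝ => u + r * s) := by fun_prop
    exact this hS
  rw [withDensity_apply _ hm, ← ofReal_integral_eq_lintegral_ofReal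
    (c_dens_integrable D).integrableOn (Filter.Eventually.of_forall fun s => D.p_nonneg s),
    ← integral_indicator hm]
  congr 2
  ext s
  by_cases h : u + r * s ∈ S
  · simp [Set.indicator, h]
  · simp [Set.indicator, h]

lemma c_int_nonneg {L : ℝ} {p q : ℝ → ℝ} (D : Dens L p q) (S : Set ℝ) (r u : ℝ) :
    0 ≤ ∫ s, S.indicator (1 : ℝ → ℝ) (u + r * s) * p s :=
  integral_nonneg fun s => mul_nonneg (Set.indicator_nonneg (fun _ _ => zero_le_one) _)
    (D.p_nonneg s)

/-- the data of one direction -/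
lemma c_direction
    (h_one_dim : ∀ {L : ℝ} {p q : ℝ → ℝ} (_ : Dens L p q),
      ∃ S : Set ℝ, MeasurableSet S ∧ ∀ r : ℝ, 1 ≤ r →
        StrictMono (fun u : ℝ => ∫ s, S.indicator 1 (u + r * s) * p s))
    (h_deriv : ∀ {μ : Measure ℝ} [IsFiniteMeasure μ]
      (_ : Integrable (fun σ : ℝ => σ ^ 2 * ‖chf μ σ‖ ^ 2)),
      ∃ q : ℝ → ℝ, Measurable q ∧ MemLp q 2 volume ∧
        ∀ g : ℝ → ℝ, ContDiff ℝ (⊤ : ℕ∞) g → HasCompactSupport g →
          ∫ s, deriv g s ∂μ = - ∫ s, g s * q s)
    (h_dens : ∀ {μ : Measure ℝ} [IsFiniteMeasure μ] (_ : μ ≠ 0) {L : ℝ} (_ : 0 < L)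
      (_ : μ {s | L < |s|} = 0) {q₀ : ℝ → ℝ} (_ : Measurable q₀) (_ : MemLp q₀ 2 volume)
      (_ : ∀ g : ℝ → ℝ, ContDiff ℝ (⊤ : ℕ∞) g → HasCompactSupport g →
        ∫ s, deriv g s ∂μ = - ∫ s, g s * q₀ s),
      ∃ p q : ℝ → ℝ, Dens L p q ∧ μ = volume.withDensity (fun s => ENNReal.ofReal (p s)))
    {n : ℕ} {E : Set (Fin (n + 1) → ℝ)} (hE : MeasurableSet E) (hb : Bornology.IsBounded E)
    (hpos : 0 < volume E) (a : Fin n → ℝ)
    (ha : Integrable (fun σ : ℝ => σ ^ 2 * ‖chf ((volume.restrict E).map (lform a)) σ‖ ^ 2)) :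
    ∃ S : Set ℝ, MeasurableSet S ∧ ∀ r : ℝ, 1 ≤ r → ∀ x x' : Fin (n + 1) → ℝ,
      volume ((fun y => r • y + x) '' E ∩ lform a ⁻¹' S) =
        volume ((fun y => r • y + x') '' E ∩ lform a ⁻¹' S) → lform a x = lform a x' := by
  have hfin : volume E ≠ ⊤ := hb.measure_lt_top.ne
  haveI : IsFiniteMeasure (volume.restrict E) := ⟨by simpa using hfin.lt_top⟩
  set μ := (volume.restrict E).map (lform a) with hμ
  haveI : IsFiniteMeasure μ := by
    rw [hμ]
    exact Measure.isFiniteMeasure_map _ _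
  have hμ0 : μ ≠ 0 := by
    intro h
    have h1 : μ univ = 0 := by rw [h]; simp
    rw [hμ, Measure.map_apply (c_lform_continuous a).measurable MeasurableSet.univ] at h1
    simp only [preimage_univ, Measure.restrict_apply_univ] at h1
    exact hpos.ne' h1
  -- the support
  have hcomp : IsCompact (closure E) := hb.isCompact_closure
  obtain ⟨C, hC⟩ := hcomp.exists_bound_of_continuousOn (c_lform_continuous a).continuousOn
  set L := max C 1 with hL
  have hLpos : 0 < L := lt_of_lt_of_le one_pos (le_max_right _ _)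
  have hsupp : μ {s | L < |s|} = 0 := by
    have hms : MeasurableSet {s : ℝ | L < |s|} := measurableSet_lt measurable_const measurable_abs
    rw [hμ, Measure.map_apply (c_lform_continuous a).measurable hms,
      Measure.restrict_apply ((c_lform_continuous a).measurable hms)]
    have : lform a ⁻¹' {s | L < |s|} ∩ E = ∅ := by
      ext z
      simp only [Set.mem_inter_iff, Set.mem_preimage, Set.mem_setOf_eq, Set.mem_empty_iff_false,
        iff_false, not_and]
      intro hz hzE
      have h1 := hC z (subset_closure hzE)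
      rw [Real.norm_eq_abs] at h1
      have h2 : C ≤ L := le_max_left _ _
      linarith
    rw [this]
    exact measure_empty
  obtain ⟨q₀, hq0m, hq02, hq0d⟩ := h_deriv (μ := μ) ha
  obtain ⟨p, q, D, hp⟩ := h_dens (μ := μ) hμ0 hLpos hsupp hq0m hq02 hq0d
  obtain ⟨S, hS, hmono⟩ := h_one_dim D
  refine ⟨S, hS, fun r hr x x' hxx => ?_⟩
  have hr0 : 0 < r := lt_of_lt_of_le one_pos hr
  rw [c_vol a E hS hr0 x, c_vol a E hS hr0 x', ← hμ, hp, c_mu D hS, c_mu D hS] at hxx
  have hrp : ENNReal.ofReal (r ^ (n + 1)) ≠ 0 := by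
    rw [ne_eq, ENNReal.ofReal_eq_zero, not_le]
    positivity
  rw [ENNReal.mul_right_inj hrp ENNReal.ofReal_ne_top] at hxx
  rw [ENNReal.ofReal_eq_ofReal_iff (c_int_nonneg D S r _) (c_int_nonneg D S r _)] at hxx
  exact (hmono r hr).injective hxx

/-- good directions: `n + 1` linearly independent ones -/
lemma c_directions {n : ℕ} {P : (Fin n → ℝ) → Prop} (h : ∀ᵐ a : Fin n → ℝ, P a) :
    ∃ b : Fin (n + 1) → (Fin n → ℝ), (∀ i, P (b i)) ∧
      ∀ x x' : Fin (n + 1) → ℝ, (∀ i, lform (b i) x = lform (b i) x') → x = x' := by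
  have h1 : ∀ i : Fin n, ∀ᵐ a : Fin n → ℝ, P (a + Pi.single i 1) := fun i =>
    (measurePreserving_add_right (volume : Measure (Fin n → ℝ)) (Pi.single i (1 : ℝ))).quasiMeasurePreserving.ae h
  have h2 : ∀ᵐ a : Fin n → ℝ, P a ∧ ∀ i, P (a + Pi.single i 1) := by
    filter_upwards [h, ae_all_iff.2 h1] with a ha hb
    exact ⟨ha, hb⟩
  obtain ⟨a, ha, hb⟩ := h2.exists
  refine ⟨Fin.cons a (fun i => a + Pi.single i 1), ?_, ?_⟩
  · intro i
    refine Fin.cases ?_ (fun j => ?_) i
    · simpa using ha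
    · simpa using hb j
  · intro x x' hx
    have h0 : lform a x = lform a x' := by simpa using hx 0
    have hs : ∀ j : Fin n, x j.succ = x' j.succ := by
      intro j
      have hj : lform (a + Pi.single j 1) x = lform (a + Pi.single j 1) x' := by
        simpa using hx j.succ
      have key : ∀ y : Fin (n + 1) → ℝ, lform (a + Pi.single j 1) y = lform a y + y j.succ := by
        intro y
        simp only [lform, Pi.add_apply, add_mul, Finset.sum_add_distrib]
        have : ∑ i, (Pi.single j (1 : ℝ) : Fin n → ℝ) i * y i.succ = y j.succ := by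
          rw [Finset.sum_eq_single j]
          · simp
          · intro b _ hbj
            simp [Pi.single_eq_of_ne hbj]
          · intro hj
            exact absurd (Finset.mem_univ j) hj
        rw [this]
        ring
      rw [key, key, h0] at hj
      linarith
    ext i
    refine Fin.cases ?_ (fun j => hs j) i
    unfold lform at h0
    have : ∑ j, a j * x j.succ = ∑ j, a j * x' j.succ :=
      Finset.sum_congr rfl fun j _ => by rw [hs j]
    rw [this] at h0
    linarith

theorem reconstruct_of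
    (h_one_dim : ∀ {L : ℝ} {p q : ℝ → ℝ} (_ : Dens L p q),
      ∃ S : Set ℝ, MeasurableSet S ∧ ∀ r : ℝ, 1 ≤ r →
        StrictMono (fun u : ℝ => ∫ s, S.indicator 1 (u + r * s) * p s))
    (h_deriv : ∀ {μ : Measure ℝ} [IsFiniteMeasure μ]
      (_ : Integrable (fun σ : ℝ => σ ^ 2 * ‖chf μ σ‖ ^ 2)),
      ∃ q : ℝ → ℝ, Measurable q ∧ MemLp q 2 volume ∧
        ∀ g : ℝ → ℝ, ContDiff ℝ (⊤ : ℕ∞) g → HasCompactSupport g →
          ∫ s, deriv g s ∂μ = - ∫ s, g s * q s)
    (h_dens : ∀ {μ : Measure ℝ} [IsFiniteMeasure μ] (_ : μ ≠ 0) {L : ℝ} (_ : 0 < L)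
      (_ : μ {s | L < |s|} = 0) {q₀ : ℝ → ℝ} (_ : Measurable q₀) (_ : MemLp q₀ 2 volume)
      (_ : ∀ g : ℝ → ℝ, ContDiff ℝ (⊤ : ℕ∞) g → HasCompactSupport g →
        ∫ s, deriv g s ∂μ = - ∫ s, g s * q₀ s),
      ∃ p q : ℝ → ℝ, Dens L p q ∧ μ = volume.withDensity (fun s => ENNReal.ofReal (p s)))
    (h_ae : ∀ {n : ℕ} (_ : 2 ≤ n) {E : Set (Fin (n + 1) → ℝ)} (_ : MeasurableSet E)
      (_ : Bornology.IsBounded E),
      ∀ᵐ a : Fin n → ℝ, Integrable
        (fun σ : ℝ => σ ^ 2 * ‖chf ((volume.restrict E).map (lform a)) σ‖ ^ 2))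
    {n : ℕ} (hn : 2 ≤ n) {E : Set (Fin (n + 1) → ℝ)} (hE : NullMeasurableSet E volume)
    (hb : Bornology.IsBounded E) (hpos : 0 < volume E) :
    Pool.Agent.Helper47.Recon.CanReconstruct (Pool.Agent.Helper47.Recon.magnifiedCopies E)
      (n + 1 + 1) := by
  obtain ⟨E', hE'E, hE', hae⟩ := hE.exists_measurable_subset_ae_eq
  have hb' : Bornology.IsBounded E' := hb.subset hE'E
  have hpos' : 0 < volume E' := by rwa [measure_congr hae]
  have hfin : volume E ≠ ⊤ := hb.measure_lt_top.ne
  obtain ⟨b, hbP, hbinj⟩ := c_directions (h_ae hn hE' hb')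
  choose S hS hSinj using fun i =>
    c_direction h_one_dim h_deriv h_dens hE' hb' hpos' (b i) (hbP i)
  refine ⟨Fin.cons univ (fun i => lform (b i) ⁻¹' S i), ?_, ?_⟩
  · intro i
    refine Fin.cases ?_ (fun j => ?_) i
    · simp
    · simpa using ((c_lform_continuous (b j)).measurable (hS j)).nullMeasurableSet
  · rintro A ⟨r, hr, x, rfl⟩ B ⟨r', hr', x', rfl⟩ hAB
    have hr0 : 0 < r := lt_of_lt_of_le one_pos hr
    have hr0' : 0 < r' := lt_of_lt_of_le one_pos hr'
    -- the ratio
    have h0 := hAB 0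
    simp only [Fin.cons_zero, Set.inter_univ] at h0
    rw [c_vol_image _ hr0, c_vol_image _ hr0', ENNReal.mul_left_inj hpos.ne' hfin,
      ENNReal.ofReal_eq_ofReal_iff (by positivity) (by positivity)] at h0
    have hrr : r = r' := by
      have := (pow_left_inj₀ hr0.le hr0'.le (Nat.succ_ne_zero n)).1 h0
      exact this
    subst hrr
    -- replacing the set by the measurable kernel
    have hrep : ∀ (z : Fin (n + 1) → ℝ) (T : Set (Fin (n + 1) → ℝ)),
        volume ((fun y => r • y + z) '' E ∩ T) = volume ((fun y => r • y + z) '' E' ∩ T) := by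
      intro z T
      refine le_antisymm ?_ (measure_mono (Set.inter_subset_inter_left _ (Set.image_mono hE'E)))
      have hnull : volume (E \ E') = 0 := by
        have h1 := hae
        rw [ae_eq_set] at h1
        exact h1.2
      have hsub : (fun y => r • y + z) '' E ∩ T ⊆
          ((fun y => r • y + z) '' E' ∩ T) ∪ (fun y => r • y + z) '' (E \ E') := by
        rintro w ⟨⟨y, hy, rfl⟩, hw⟩
        by_cases hyE : y ∈ E'
        · exact Or.inl ⟨⟨y, hyE, rfl⟩, hw⟩
        · exact Or.inr ⟨y, ⟨hy, hyE⟩, rfl⟩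
      refine (measure_mono hsub).trans ((measure_union_le _ _).trans ?_)
      rw [c_vol_image _ hr0, hnull, mul_zero, add_zero]
    have hx : x = x' := by
      refine hbinj x x' fun i => hSinj i r hr x x' ?_
      have hi := hAB i.succ
      simp only [Fin.cons_succ] at hi
      rw [hrep, hrep] at hi
      exact hi
    rw [hx]

end Pool.Agent.Helper37.RQ
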